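import Pool.Agent.Helper47.EXT.Full
import Pool.Agent.Helper25.MXD.Pre
import Pool.Agent.Helper26.OUT.Wl

/-! EXIT: a class of ordinary systems with boxes of exponents `w j * c`, without larger hulls, closed under zooms over all
labels which carry the box, in all frames, is an input (`Pre`) of the second selection. -/

set_option autoImplicit false

namespace Pool.Agent.Helper47.EXT

open Finset Filter Topology Matrix Pool.Agent.Helper69.RK Pool.Agent.Helper31.EC Pool.Agent.Helper31.EC.Sp
open Pool.Agent.Helper40.EL Pool.Agent.Helper89.LX Pool.Agent.Helper3.LF Pool.Agent.Helper84.MT Pool.Agent.Helper36.AM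
open Pool.Agent.Helper7.GZ Pool.Agent.Helper26.CLD Pool.Agent.Helper89.RAT Pool.Agent.Helper25.MXD
open Pool.Agent.Helper49.MD (lft DiagCl)
open Pool.Agent.Helper26.OUT (WDs)

noncomputable section

variable {S : Sp} {M : ℕ} {E : ℕ → ℕ} {ι : Type}

/-- the first label, seen from the join of two labels -/
def j1 (l l' : Lab S) : Pj (l.join l').sp l.sp where
  π := fun k => ((l k).am (l' k)).p1.π
  law := fun k => ((l k).am (l' k)).p1.law
  hZ := fun k => ((l k).am (l' k)).p1.hZ
  hn := fun _ => rfl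

/-- a frame of a label is a frame of the join -/
def fjn {Q : S.VV M} {l : Lab S} {La : Fin M → ℝ} (f : Frm Q l La) (l' : Lab S) : Frm Q (l.join l') La where
  X := (j1 l l').vv f.X
  P := fun k ω => f.P k (((l k).am (l' k)).p1.π ω)
  tri := fun k ω j i hi => f.tri k _ j i hi
  red := fun k ω j a ha h0 => f.red k _ j a ha h0
  fn := by
    filter_upwards [f.fn] with k hk ω ω' h1 h2 h3 h4
    have a1 := ((l k).am (l' k)).p1.supp ω h1
    have a2 := ((l k).am (l' k)).p1.supp ω' h2
    exact hk _ _ a1 a2 ((((l k).am (l' k)).p1.hZ ω ω' h1 h2).mp h3) h4.1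
  bd := by
    obtain ⟨K, hK, hb⟩ := f.bd
    refine ⟨K, hK, ?_⟩
    filter_upwards [hb] with k hk ω hω j a
    exact hk _ (((l k).am (l' k)).p1.supp ω hω) j a
  pt := by
    obtain ⟨K, hK, hb⟩ := f.pt
    refine ⟨K, hK, ?_⟩
    filter_upwards [hb] with k hk ω hω j
    exact hk _ (((l k).am (l' k)).p1.supp ω hω) j

/-- the join with a maximal label is maximal -/
theorem join_kap {s : MSys S M E ι} {c : ℝ} {l l' : Lab S} (hl : s.DMc c l) (hl' : s.IsKap c l') :
    s.IsKap c (l.join l') := by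
  have h0 : (l.join l').DMf (s.cnd c) := Lab.DMf.join hl hl'.1
  refine ⟨h0, fun y hy => (hl'.2 y hy).trans ?_⟩
  refine ul_mono (hl'.1.ub (i := none) (pcd_Bd s.Q)) (h0.ub (i := none) (pcd_Bd s.Q)) ?_
  exact Eventually.of_forall fun k => div_le_div_of_nonneg_right ((l k).join_info_ge_right (l' k)) (S.F k).pos.le

/-- the trivial frame, exponents zero -/
def f0 (Q : S.VV M) (l : Lab S) {La : Fin M → ℝ} (h : ∀ i, La i = 0) : Frm Q l La where
  X := l.pj.vv Q
  P := fun _ _ _ => 0
  tri := fun k ω j i hi => by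
    rw [MvPolynomial.vars_0] at hi
    exact absurd hi (Finset.notMem_empty i)
  red := fun k ω j a ha h0 => by
    rw [MvPolynomial.support_zero] at ha
    exact absurd ha (Finset.notMem_empty a)
  fn := Eventually.of_forall fun k ω ω' _ _ _ _ => rfl
  bd := ⟨fun _ => 1, S.Sub_const zero_le_one, Eventually.of_forall fun k ω _ j a => by
    rw [MvPolynomial.coeff_zero, abs_zero]
    exact zero_le_one⟩
  pt := ⟨fun _ => 1, S.Sub_const zero_le_one, Eventually.of_forall fun k ω _ j => by
    rw [map_zero, zero_add, h j, S.dl_zero, one_mul, sub_self, abs_zero, one_mul]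
    exact (S.dl_pos 1 k).le⟩

/-- THE INPUT of the exit: a class of ordinary systems -/
structure Yo (M : ℕ) (Cl : MCl (M + 1)) (g r : ℕ) (w : Fin (M + 1) → ℝ)
    (CC : ∀ S : Sp, MSys S (M + 1) (lin g) (Fin r) → Prop) : Prop where
  cl : ∀ S s, CC S s → Cl S g r s
  im : ∀ S s, CC S s → ∀ (T : Sp) (p : Pj T S) (A : ∀ k, (T.F k).Ω → Prop) (hA : 0 < ul (T.pr A)),
    CC (Sp.im p A) (s.im p A hA)
  dg : DiagCl (lft CC)
  trn : ∀ S s, CC S s → ∀ (e : ℝ) (he : 0 < e) (h1 : e ≤ 1), CC (S.chg S.tr e he) (s.trn e he h1)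
  mono : Monotone w
  one : w 0 = 1
  wd : ∀ S s, CC S s → WDs w s
  /-- labels of the window `c` have at most the exponents `w j * c` -/
  vol : ∀ S s, CC S s → ∀ c : ℝ, 0 ≤ c → w (Fin.last M) * c < 1 → (M : ℝ) + 1 - ∑ j, w j * c ≤ volO s c
  /-- and these exponents are attained -/
  box : ∀ S s, CC S s → ∀ c : ℝ, 0 < c → w (Fin.last M) * c < 1 → ∃ (l : Lab S) (_ : Frm s.Q l (fun j => w j * c)),
    s.DMc c l
  /-- zooms over all labels and all frames (`c = 0`: base change and new unit) -/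
  zoom : ∀ S s, CC S s → ∀ c : ℝ, 0 ≤ c → w (Fin.last M) * c < 1 → ∀ (l : Lab S) (f : Frm s.Q l (fun j => w j * c)),
    s.DMc c l → ∀ (e : ℝ) (he : 0 < e), w (Fin.last M) * c + e ≤ 1 → ∃ t : MSys (l.ovr e he) (M + 1) (lin g) (Fin r),
      Gzf s l f c e he t ∧ CC _ t
  /-- deficit -/
  dfc : ∃ S s, CC S s ∧ H (s.Q.dg 1) < M + 1

/-- THE INPUT OF THE SECOND SELECTION -/
theorem Yo.pre {Cl : MCl (M + 1)} {g r : ℕ} {w : Fin (M + 1) → ℝ}
    {CC : ∀ S : Sp, MSys S (M + 1) (lin g) (Fin r) → Prop} (h : Yo M Cl g r w CC) (hST : STu M) :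
    Pre M Cl g r w CC := by
  have w1 : ∀ j, 1 ≤ w j := fun j => by
    rw [← h.one]
    exact h.mono (Fin.zero_le j)
  have wl : ∀ j, w j ≤ w (Fin.last M) := fun j => h.mono (Fin.le_last j)
  have hbox : ∀ S s, CC S s → ∀ c : ℝ, 0 < c → w (Fin.last M) * c < 1 →
      ∃ (l : Lab S) (_ : Frm s.Q l (fun j => w j * c)), s.IsKap c l := by
    intro S s hs c h0 h1
    obtain ⟨l, f, hl⟩ := h.box S s hs c h0 h1
    exact ⟨l.join (s.kap c), fjn f (s.kap c), join_kap hl (s.kap_isKap c)⟩
  exact {
    cl := h.cl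
    im := h.im
    dg := h.dg
    hull := fun S s hs => by
      have h1 := h.vol S s hs 0 le_rfl (by rw [mul_zero]; exact zero_lt_one)
      have h2 := volO_le_M s 0
      have e1 : ∑ j, w j * (0 : ℝ) = 0 := Finset.sum_eq_zero fun j _ => mul_zero _
      rw [e1, sub_zero] at h1
      push_cast at h2
      exact le_antisymm h2 h1
    mono := h.mono
    one := h.one
    trn := h.trn
    wd := h.wd
    box := hbox
    zoom := fun S s hs c h0 h1 l f hl e he h2 => h.zoom S s hs c h0.le h1 l f hl.1 e he h2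
    bas := fun S s hs l hl => by
      have hz : ∀ j, w j * (0 : ℝ) = 0 := fun j => mul_zero _
      obtain ⟨t, ht, hC⟩ := h.zoom S s hs 0 le_rfl (by rw [mul_zero]; exact zero_lt_one) l (f0 s.Q l hz) hl 1 one_pos
        (by rw [mul_zero, zero_add])
      refine ⟨_, t, hC, ?_⟩
      have h1 := t_le (a := 0) (b := 1) (κ := 0) ht.toGz (fun i => (hz i).ge) (fun k ω j => by
        show (0 : MvPolynomial (Fin (M + 1)) ℝ).totalDegree ≤ 0
        rw [MvPolynomial.totalDegree_zero]) (fun j => (hz j).le) le_rfl (by norm_num)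
      have h2 := H_mono h1
      rw [zero_add, one_mul] at h2
      exact h2
    full := fun S s hs c h0 h1 l hl => by
      have hw := w1 (Fin.last M)
      have hc1 : c < 1 := by nlinarith
      have hv := h.vol S s hs c h0 h1
      rcases h0.eq_or_lt with hc | hc
      · subst hc
        have hz : ∀ j, w j * (0 : ℝ) = 0 := fun j => mul_zero _
        exact full_box hST le_rfl one_pos (f0 s.Q l hz) hl (fun i => (hz i).ge) (fun i => by
          rw [hz i]; exact zero_le_one) (κ := 0) (fun k ω j => by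
          show (0 : MvPolynomial (Fin (M + 1)) ℝ).totalDegree ≤ 0
          rw [MvPolynomial.totalDegree_zero]) hv
      · obtain ⟨l0, f, hl0⟩ := hbox S s hs c hc h1
        rw [hl.H_eq hl0]
        exact full_box hST h0 hc1 f hl0 (fun i => mul_nonneg (zero_le_one.trans (w1 i)) h0) (fun i =>
          (mul_le_mul_of_nonneg_right (wl i) h0).trans h1.le) (fun k ω j => Frm.deg hc w1 wl f k ω j) hv
    dfc := h.dfc }

end

end Pool.Agent.Helper47.EXT
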