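import Pool.Agent.Helper47.EXT.Yc
import Pool.Agent.Helper25.MXD.Main
import Pool.Agent.Helper29.MX.St

/-! EXIT of the MAX chapter: the theorem `EXITP`. -/

set_option autoImplicit false

namespace Pool.Agent.Helper47.EXT

open Finset Filter Topology Matrix Pool.Agent.Helper69.RK Pool.Agent.Helper31.EC Pool.Agent.Helper31.EC.Sp
open Pool.Agent.Helper40.EL Pool.Agent.Helper89.LX Pool.Agent.Helper3.LF Pool.Agent.Helper84.MT Pool.Agent.Helper36.AM
open Pool.Agent.Helper25.MXD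
open Pool.Agent.Helper49.MD (lft DiagCl)
open Pool.Agent.Helper29.MX (YC EXITP TLb)

noncomputable section

theorem Yo.of_yc {M : ℕ} {B : MCl (M + 1)} {g r : ℕ} {w : Fin (M + 1) → ℝ}
    {Y : ∀ S : Sp, MSys S (M + 1) (lin g) (Fin r) → Prop} (h : YC M B g r w Y) : Yo M B g r w Y where
  cl := h.cl
  im := h.im
  dg := h.dg
  trn := h.trn
  mono := h.mono
  one := h.one
  wd := h.wd
  vol := fun S s hs c h0 h1 => le_ciInf fun D => by
    obtain ⟨x, hx⟩ := s.exists_can D c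
    rw [← s.vol_eq hx.1]
    exact h.typ S s hs c h0 h1 D x fun η hη => (hx.1.1 η hη).mono fun k hk => ⟨fun i => hk.1 (some i), hk.2⟩
  box := h.box
  zoom := fun S s hs c h0 h1 l f hl e he h2 => h.zoom S s hs c h0 h1 l f (fun i => hl (some i)) e he h2
  dfc := h.ne.imp fun S hS => hS.imp fun s hs => ⟨hs, h.dfc S s hs⟩

/-- EXIT -/
theorem exitp (M : ℕ) : EXITP M := by
  intro B hST g r w Y h
  obtain ⟨ρ, TT, hT⟩ := hom_of_pre ((Yo.of_yc h).pre (hST M (Nat.lt_succ_self M)))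
  exact ⟨g, r, ρ, TT, hT⟩

end

end Pool.Agent.Helper47.EXT
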