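import Pool.Agent.Helper26.CLD.Box
import Pool.Agent.Helper89.RAT.Eta
import Pool.Agent.Helper25.MXD.Cnt

/-! EXIT: over a box the coordinates other than the last have all the digits which the box allows. -/

set_option autoImplicit false

namespace Pool.Agent.Helper47.EXT

open Finset Filter Topology Matrix Pool.Agent.Helper69.RK Pool.Agent.Helper31.EC Pool.Agent.Helper31.EC.Sp
open Pool.Agent.Helper40.EL Pool.Agent.Helper89.LX Pool.Agent.Helper3.LF Pool.Agent.Helper84.MT Pool.Agent.Helper36.AM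
open Pool.Agent.Helper7.GZ Pool.Agent.Helper26.CLD Pool.Agent.Helper89.RAT Pool.Agent.Helper25.MXD

noncomputable section

variable {S : Sp} {M : ℕ} {E : ℕ → ℕ} {ι : Type}

/-- the derivative of the last row of a frame in the last direction -/
theorem row_last {P : Fin (M + 1) → MvPolynomial (Fin (M + 1)) ℝ} (tri : ∀ j, ∀ i ∈ (P j).vars, i < j)
    (d : Fin (M + 1) → ℝ) (x : Fin (M + 1) → ℝ) :
    dP (fun i => MvPolynomial.C (d i) * inv P i) x (Pi.single (Fin.last M) 1) (Fin.last M) = d (Fin.last M) := by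
  classical
  rw [← jac_mul, Matrix.mulVec_single_one]
  show MvPolynomial.eval x (MvPolynomial.pderiv (Fin.last M) (MvPolynomial.C (d (Fin.last M)) *
    inv P (Fin.last M))) = _
  rw [MvPolynomial.pderiv_C_mul, map_mul, MvPolynomial.eval_C, pderiv_inv tri (M + 1) (Fin.last M) (Fin.last M).2 _
    le_rfl, if_pos rfl, map_one, mul_one]

/-- THE EXPONENT IN THE LAST DIRECTION of an optimal form is at least the exponent of the box -/
theorem zx_box [Finite ι] {s : MSys S (M + 1) E ι} {c : ℝ} {l : Lab S} {La : Fin (M + 1) → ℝ} (f : Frm s.Q l La)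
    (hl : s.DMc c l) (h0 : ∀ i, 0 ≤ La i) (h1 : ∀ i, La i ≤ 1) {κ : ℕ}
    (hκ : ∀ k ω j, (f.P k ω j).totalDegree ≤ κ) {D : ℕ} (hD : (κ + 1) ^ (M + 1) ≤ D)
    {x : ∀ k, FD (S.F k) (Mon (M + 1) D)} (hx : (gaq s.Q D).Optf (s.cnd c) x) :
    La (Fin.last M) ≤ zx s.Q (Fin.last M) x := by
  apply le_of_forall_pos_le_add
  intro e he
  have h2 := box_dom f hl h0 h1 hκ hD hx (2 * e) (by linarith)
  have h3 : Tendsto (fun k => (x k).l.T.pb (fun ω => ¬ La (Fin.last M) - e ≤
      xz s.Q (Fin.last M) k ((x k).l.p.π ω) ((x k).g ω))) UF (𝓝 0) := by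
    refine squeeze_zero' (Eventually.of_forall fun k => FSp.pb_nonneg _ _) ?_ h2
    filter_upwards [hx.1 1 one_pos] with k a3
    rw [← pb_push ((x k).l.am (l k)).p1 (fun ω => ¬ La (Fin.last M) - e ≤
      xz s.Q (Fin.last M) k ((x k).l.p.π ω) ((x k).g ω))]
    apply FSp.pb_mono
    intro w hw h3 h4
    apply h3
    have hω1 := ((x k).l.am (l k)).p1.supp w hw
    have hC := (a3.2.1 _ hω1).1
    have hn := (S.F k).pos
    have h5 := h4 (Pi.single (Fin.last M) 1)
    rw [single_dv] at h5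
    have h6 := row_last (f.tri k (((x k).l.am (l k)).p2.π w)) (fun i => (S.dl (La i) k)⁻¹)
      (s.Q.v k ((x k).l.p.π (((x k).l.am (l k)).p1.π w)))
    have h7 : ∀ v : Fin (M + 1) → ℝ, v (Fin.last M) ^ 2 ≤ v ⬝ᵥ v := by
      intro v
      unfold dotProduct
      have := Finset.single_le_sum (f := fun i => v i * v i) (fun i _ => mul_self_nonneg (v i))
        (Finset.mem_univ (Fin.last M))
      rw [pow_two]
      exact this
    have h8 := (h7 _).trans h5
    rw [h6, dl_inv_eq, ← Real.rpow_natCast, ← Real.rpow_mul (by norm_num)] at h8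
    have h9 : (1 + Jq (S.dl 1 k) ((x k).g (((x k).l.am (l k)).p1.π w))
        (s.Q.v k ((x k).l.p.π (((x k).l.am (l k)).p1.π w)))) (Fin.last M) (Fin.last M) =
        Jz s.Q (Fin.last M) k ((x k).l.p.π (((x k).l.am (l k)).p1.π w)) ((x k).g (((x k).l.am (l k)).p1.π w)) := by
      unfold Jz
      rw [Matrix.add_apply, Matrix.one_apply_eq]
    rw [h9] at h8
    have h10 := one_le_Jz s.Q (Fin.last M) k ((x k).l.p.π (((x k).l.am (l k)).p1.π w)) fun v => hC.psd.2 v
    have h11 := Real.logb_le_logb_of_le (b := 2) (by norm_num) (by positivity) h8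
    rw [Real.logb_rpow (by norm_num) (by norm_num), Real.logb_mul (by positivity) (by linarith),
      Real.logb_rpow (by norm_num) (by norm_num)] at h11
    unfold xz
    rw [le_div_iff₀ (by positivity)]
    push_cast at h11
    linarith
  obtain ⟨C, -, hb⟩ := xz_bd (Fin.last M) hx.1
  have e1 : (fun k => ∑ ω, (x k).l.T.μ ω * (La (Fin.last M) - e)) = fun _ => La (Fin.last M) - e := by
    funext k
    rw [← Finset.sum_mul, Pool.Agent.Helper3.PR.sum_mu, one_mul]
  have key := ul_avg_le (fun k => (x k).l.T) (fun k ω => xz s.Q (Fin.last M) k ((x k).l.p.π ω) ((x k).g ω))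
    (fun k _ => La (Fin.last M) - e) (fun k ω => La (Fin.last M) - e ≤
      xz s.Q (Fin.last M) k ((x k).l.p.π ω) ((x k).g ω)) (fun _ => 0) tendsto_const_nhds (La (Fin.last M) - e)
    h3 (Eventually.of_forall fun k ω _ h => by rw [add_zero]; exact h)
    (Eventually.of_forall fun k ω _ => le_rfl) (hb.mono fun k hk ω hω => (hk ω hω).1)
    (by rw [e1]; exact UB_const _) (zv_UB (Fin.last M) hx.1)
  rw [e1, ul_const] at key
  have : ul (fun k => ∑ ω, (x k).l.T.μ ω * xz s.Q (Fin.last M) k ((x k).l.p.π ω) ((x k).g ω)) =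
      zx s.Q (Fin.last M) x := rfl
  rw [this] at key
  linarith

/-- THE OTHER COORDINATES FILL THEIR BOX -/
theorem full_box {g r : ℕ} (hST : STu M) {s : MSys S (M + 1) (lin g) (Fin r)} {c : ℝ} (hc0 : 0 ≤ c) (hc1 : c < 1)
    {l : Lab S} {La : Fin (M + 1) → ℝ} (f : Frm s.Q l La) (hl : s.IsKap c l) (h0 : ∀ i, 0 ≤ La i)
    (h1 : ∀ i, La i ≤ 1) {κ : ℕ} (hκ : ∀ k ω j, (f.P k ω j).totalDegree ≤ κ)
    (hv : (M : ℝ) + 1 - ∑ i, La i ≤ volO s c) :
    ∑ j : Fin M, (1 - La j.castSucc) ≤ H (up1 l ((ozr s.Q (Fin.last M)).dg 1)) := by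
  obtain ⟨D₁, hD₁⟩ := hST g
  obtain ⟨D, hD⟩ : ∃ D, D = max D₁ ((κ + 1) ^ (M + 1)) := ⟨_, rfl⟩
  have d1 : D₁ ≤ D := by rw [hD]; exact le_max_left _ _
  have d2 : (κ + 1) ^ (M + 1) ≤ D := by rw [hD]; exact le_max_right _ _
  have d3 : 1 ≤ D := le_trans (Nat.one_le_pow _ _ (Nat.succ_pos κ)) d2
  obtain ⟨x, hx⟩ := s.exists_can D c
  have a1 := (idP M).win d3 (hD₁ D d1 r) s hc0 hc1 hx (Fin.last M) (prl s.Q) (fun k ω a => by
    rw [Fin.succAbove_last]
    rfl)
  have a2 := zx_box f hl.1 h0 h1 hκ d2 hx.1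
  have a3 := s.vol_eq hx.1
  have a4 := volO_le s D c
  have a5 : H (up1 (lb x) ((prl s.Q).dg 1)) = H (up1 l ((prl s.Q).dg 1)) := hx.2.H_eq hl _
  rw [a5] at a1
  rw [← prl_dg]
  rw [Fin.sum_univ_castSucc] at hv
  have e1 : ∑ j : Fin M, (1 - La j.castSucc) = M - ∑ j : Fin M, La j.castSucc := by
    rw [Finset.sum_sub_distrib, Finset.sum_const, Finset.card_univ, Fintype.card_fin, nsmul_eq_mul, mul_one]
  rw [e1]
  linarith

end

end Pool.Agent.Helper47.EXT
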